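import Pool.Agent.Helper24.MD.Defs

set_option autoImplicit false

/-! # MQ, Count: all but `r ^ 3` multipliers separate `Y_+` from `Y_0` -/

namespace Pool.Agent.Helper82.MQ

open Finset
open Pool.Agent.Helper24.MD (rX rY)

/-- equal classes force `p ^ α ∣ g - g'` -/
private theorem core (p t α : ℕ) (hp : p.Prime) (g g' : ℕ) (x x' w w' : ℤ) (y z : ℕ)
    (hy : p ^ t ∣ y) (hy1 : ¬ p ^ (t + 1) ∣ y)
    (h1 : ((x : ZMod (p ^ (t + α))) + (g : ZMod (p ^ (t + α))) * (y : ZMod (p ^ (t + α)))) = x')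
    (h2 : ((w : ZMod (p ^ (t + α))) + (g' : ZMod (p ^ (t + α))) * (z : ZMod (p ^ (t + α)))) = w')
    (e1 : rX (p ^ (t + α)) x = rX (p ^ (t + α)) w)
    (e2 : rX (p ^ (t + α)) x' = rX (p ^ (t + α)) w')
    (e3 : rY (p ^ (t + α)) y = rY (p ^ (t + α)) z) :
    ((p ^ α : ℕ) : ℤ) ∣ (g : ℤ) - g' := by
  unfold rX rY at *
  rw [← e1, ← e2, ← e3] at h2
  have k3 : ((((g : ℤ) - g') * (y : ℤ) : ℤ) : ZMod (p ^ (t + α))) = 0 := by
    push_cast
    linear_combination h1 - h2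
  rw [ZMod.intCast_zmod_eq_zero_iff_dvd] at k3
  obtain ⟨u, rfl⟩ := hy
  have hp0 : (p : ℤ) ≠ 0 := by exact_mod_cast hp.ne_zero
  have hu : ¬ (p : ℤ) ∣ (u : ℤ) := by
    intro h
    apply hy1
    rw [pow_succ]
    exact Nat.mul_dvd_mul_left _ (by exact_mod_cast h)
  have k4 : (p : ℤ) ^ t * (p : ℤ) ^ α ∣ (p : ℤ) ^ t * (((g : ℤ) - g') * u) := by
    have e : (p : ℤ) ^ t * (((g : ℤ) - g') * u) = ((g : ℤ) - g') * ((p ^ t * u : ℕ) : ℤ) := by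
      push_cast
      ring
    rw [e, ← pow_add]
    exact_mod_cast k3
  have k5 : (p : ℤ) ^ α ∣ ((g : ℤ) - g') * u :=
    (mul_dvd_mul_iff_left (pow_ne_zero t hp0)).1 k4
  have k6 := (Nat.prime_iff_prime_int.1 hp).pow_dvd_of_dvd_mul_right α hu k5
  exact_mod_cast k6

open Classical in
/-- Let `p ^ α` divide no difference of two elements of `G`. Then all but `r ^ 3` elements `g` of
`G` have `X + g Y_+` and `X + g Y_0` disjoint. -/
theorem count_bad (p t α : ℕ) (hp : p.Prime) (G : Finset ℕ)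
    (hG : ∀ g ∈ G, ∀ g' ∈ G, g ≠ g' → ¬ ((p ^ α : ℕ) : ℤ) ∣ (g : ℤ) - g')
    (X : Finset ℤ) (Y : Finset ℕ) (hY : ∀ y ∈ Y, p ^ t ∣ y)
    (hgap : ∀ y ∈ Y, ¬ p ^ (t + α) ∣ y → ¬ p ^ (t + 1) ∣ y) (r : ℕ)
    (hXr : (X.image (rX (p ^ (t + α)))).card ≤ r)
    (hYr : (Y.image (rY (p ^ (t + α)))).card ≤ r) :
    (G.filter (fun g : ℕ => ¬ (∀ x ∈ X, ∀ x' ∈ X, ∀ y ∈ Y, ∀ y' ∈ Y,
      x + (g : ℤ) * (y : ℤ) = x' + (g : ℤ) * (y' : ℤ) →
        (p ^ (t + α) ∣ y ↔ p ^ (t + α) ∣ y')))).card ≤ r ^ 3 := by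
  have key : ∀ g ∈ G.filter (fun g : ℕ => ¬ (∀ x ∈ X, ∀ x' ∈ X, ∀ y ∈ Y, ∀ y' ∈ Y,
      x + (g : ℤ) * (y : ℤ) = x' + (g : ℤ) * (y' : ℤ) →
        (p ^ (t + α) ∣ y ↔ p ^ (t + α) ∣ y'))),
      ∃ q : (ℤ × ℤ) × ℕ, q.1.1 ∈ X ∧ q.1.2 ∈ X ∧ q.2 ∈ Y ∧
        ((q.1.1 : ZMod (p ^ (t + α))) + (g : ZMod (p ^ (t + α))) * (q.2 : ZMod (p ^ (t + α))) =
          (q.1.2 : ZMod (p ^ (t + α)))) ∧ ¬ p ^ (t + α) ∣ q.2 := by
    intro g hg
    rw [mem_filter] at hg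
    have h := hg.2
    push Not at h
    obtain ⟨x, hx, x', hx', y, hy, y', hy', he, hne⟩ := h
    have he' := congrArg (fun s : ℤ => (s : ZMod (p ^ (t + α)))) he
    push_cast at he'
    by_cases hyd : p ^ (t + α) ∣ y
    · have hy'd : ¬ p ^ (t + α) ∣ y' := by
        rcases hne with ⟨-, h2⟩ | ⟨h1, -⟩
        · exact h2
        · exact absurd hyd h1
      have h0 : ((y : ℕ) : ZMod (p ^ (t + α))) = 0 := (ZMod.natCast_eq_zero_iff _ _).2 hyd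
      rw [h0, mul_zero, add_zero] at he'
      exact ⟨((x', x), y'), hx', hx, hy', he'.symm, hy'd⟩
    · have hy'd : p ^ (t + α) ∣ y' := by
        rcases hne with ⟨h1, -⟩ | ⟨-, h2⟩
        · exact absurd h1 hyd
        · exact h2
      have h0 : ((y' : ℕ) : ZMod (p ^ (t + α))) = 0 := (ZMod.natCast_eq_zero_iff _ _).2 hy'd
      rw [h0, mul_zero, add_zero] at he'
      exact ⟨((x, x'), y), hx, hx', hy, he', hyd⟩
  choose! q hx hx' hy he hne using key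
  set T := ((X.image (rX (p ^ (t + α)))) ×ˢ (X.image (rX (p ^ (t + α))))) ×ˢ
    (Y.image (rY (p ^ (t + α)))) with hT
  have hcard : T.card ≤ r ^ 3 := by
    rw [hT, card_product, card_product]
    calc _ ≤ (r * r) * r := by gcongr
      _ = r ^ 3 := by ring
  refine le_trans (card_le_card_of_injOn (fun g => ((rX (p ^ (t + α)) (q g).1.1,
    rX (p ^ (t + α)) (q g).1.2), rY (p ^ (t + α)) (q g).2)) ?_ ?_) hcard
  · intro g hg
    simp only [hT, coe_product, Set.mem_prod, mem_coe]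
    exact ⟨⟨mem_image_of_mem _ (hx g hg), mem_image_of_mem _ (hx' g hg)⟩,
      mem_image_of_mem _ (hy g hg)⟩
  · intro g hg g' hg' heq
    simp only [Prod.mk.injEq] at heq
    obtain ⟨⟨e1, e2⟩, e3⟩ := heq
    by_contra hcon
    exact hG g (mem_filter.1 hg).1 g' (mem_filter.1 hg').1 hcon
      (core p t α hp g g' _ _ _ _ _ _ (hY _ (hy g hg)) (hgap _ (hy g hg) (hne g hg)) (he g hg)
        (he g' hg') e1 e2 e3)

end Pool.Agent.Helper82.MQ
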