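import Pool.Agent.Helper24.MD.CaseAB
import Pool.Agent.Helper24.MD.CaseC
import Pool.Agent.Helper24.MD.Trunc
import Pool.Agent.Helper82.MQ.Count

set_option autoImplicit false

/-! # MQ, the cases of Proposition S with a general functional `F` in place of `lam rr + K qq` -/

namespace Pool.Agent.Helper82.MQ

open Finset
open Pool.Agent.Helper24.MD (av cl hh sm dd rX rY av_add av_const av_mono av_mul av_comm mem_cl_self
  hh_nonneg log_card_eq hh_le_log_card step_left step_right dd_restrict dd_step_any dd_step_coprime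
  trunc)

/-- the bound of Proposition S -/
noncomputable def Bd (ε : ℝ) (F : Finset ℕ → ℝ) (X : Finset ℤ) (Y : Finset ℕ) : ℝ :=
  ε * Real.log (X.card : ℝ) + ε * Real.log (Y.card : ℝ) + F Y

theorem log_card_mono {α : Type*} {S T : Finset α} (hS : S.Nonempty) (h : S ⊆ T) :
    Real.log (S.card : ℝ) ≤ Real.log (T.card : ℝ) := by
  apply Real.log_le_log
  · exact_mod_cast Finset.card_pos.2 hS
  · exact_mod_cast Finset.card_le_card h

/-- the loss of a restriction -/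
theorem log_loss {α : Type*} {S T : Finset α} (hS : S.Nonempty) (h : S ⊆ T) (κ : ℝ) (hκ : 0 < κ)
    (hκ1 : κ ≤ 1 / 2) (hτ : (1 - κ) * (T.card : ℝ) ≤ (S.card : ℝ)) :
    Real.log (T.card : ℝ) - Real.log (S.card : ℝ) ≤ 2 * κ := by
  have hSp : (0 : ℝ) < (S.card : ℝ) := by exact_mod_cast Finset.card_pos.2 hS
  have hST : (S.card : ℝ) ≤ (T.card : ℝ) := by exact_mod_cast Finset.card_le_card h
  have hT : (0 : ℝ) < (T.card : ℝ) := lt_of_lt_of_le hSp hST
  have h1κ : (0 : ℝ) < 1 - κ := by linarith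
  have h1 : Real.log ((1 - κ) * (T.card : ℝ)) ≤ Real.log (S.card : ℝ) :=
    Real.log_le_log (mul_pos h1κ hT) hτ
  rw [Real.log_mul h1κ.ne' hT.ne'] at h1
  have h2 : 1 - (1 - κ)⁻¹ ≤ Real.log (1 - κ) := Real.one_sub_inv_le_log_of_pos h1κ
  have h3 : (1 - κ)⁻¹ ≤ 1 + 2 * κ := by
    rw [inv_le_comm₀ h1κ (by linarith)]
    rw [inv_le_iff_one_le_mul₀ (by linarith)]
    nlinarith
  linarith

/-- case A -/
theorem caseA (ε lam κ : ℝ) (hε : 0 ≤ ε) (hκ : 0 < κ) (hκ1 : κ ≤ 1 / 2)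
    (hκl : 2 * κ ≤ lam) (G : Finset ℕ) (hG : G.Nonempty) (F : Finset ℕ → ℝ) (X : Finset ℤ)
    (hX : X.Nonempty) (Y Yp : Finset ℕ) (hsub : Yp ⊆ Y) (hne : Yp.Nonempty)
    (hτ : (1 - κ) * (Y.card : ℝ) ≤ (Yp.card : ℝ)) (hF : F Yp + lam ≤ F Y)
    (IH : av G (fun g => dd g X Yp) ≤ Bd ε F X Yp) :
    av G (fun g => dd g X Y) ≤ Bd ε F X Y := by
  have hloss := log_loss hne hsub κ hκ hκ1 hτ
  have hlogY := log_card_mono hne hsub
  have hav : av G (fun g => dd g X Y) ≤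
      av G (fun g => (Real.log (Y.card : ℝ) - Real.log (Yp.card : ℝ)) + dd g X Yp) := by
    refine av_mono G _ _ (fun g _ => ?_)
    have := dd_restrict g (Finset.Subset.refl X) hsub hX hne
    linarith
  rw [av_add, av_const G hG] at hav
  have e1 : ε * Real.log (Yp.card : ℝ) ≤ ε * Real.log (Y.card : ℝ) :=
    mul_le_mul_of_nonneg_left hlogY hε
  unfold Bd at IH ⊢
  linarith

/-- case B: restrict to multiples of `M`; then the residue of `x` is seen. -/
theorem caseB (ε : ℝ) (hε : 0 ≤ ε) (G : Finset ℕ) (hG : G.Nonempty) (F : Finset ℕ → ℝ) (M : ℕ)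
    (X : Finset ℤ) (hX : X.Nonempty) (Y Y0 : Finset ℕ) (hsub : Y0 ⊆ Y) (hne : Y0.Nonempty)
    (hdiv : ∀ y ∈ Y0, M ∣ y) (hF : F Y0 ≤ F Y)
    (hB : Real.log (Y.card : ℝ) - Real.log (Y0.card : ℝ) ≤ ε * hh (rX M) X)
    (IH : ∀ X' : Finset ℤ, X'.Nonempty → av G (fun g => dd g X' Y0) ≤ Bd ε F X' Y0) :
    av G (fun g => dd g X Y) ≤ Bd ε F X Y := by
  have hlogY := log_card_mono hne hsub
  have hone : ∀ g : ℕ, dd g X Y ≤ (Real.log (Y.card : ℝ) - Real.log (Y0.card : ℝ)) +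
      av X (fun x => dd g (cl (rX M) X x) Y0) := by
    intro g
    have h1 := dd_restrict g (Finset.Subset.refl X) hsub hX hne
    have h2 := step_left (fun (x : ℤ) (y : ℕ) => x + (g : ℤ) * (y : ℤ)) (rX M)
      (fun _ : ℕ => ()) X Y0 hX hne (by
        intro x _ x' _ y hy y' hy' _ hxy
        have e : ((x + (g : ℤ) * (y : ℤ) : ℤ) : ZMod M) = ((x' + (g : ℤ) * (y' : ℤ) : ℤ) : ZMod M) :=
          congrArg (fun z : ℤ => (z : ZMod M)) hxy
        have hy0 : ((y : ℕ) : ZMod M) = 0 := (ZMod.natCast_eq_zero_iff y M).2 (hdiv y hy)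
        have hy0' : ((y' : ℕ) : ZMod M) = 0 := (ZMod.natCast_eq_zero_iff y' M).2 (hdiv y' hy')
        push_cast at e
        rw [hy0, hy0', mul_zero, add_zero, add_zero] at e
        exact e)
    have hcl : ∀ y : ℕ, cl (fun _ : ℕ => ()) Y0 y = Y0 := by
      intro y
      unfold cl
      exact Finset.filter_true_of_mem (fun _ _ => rfl)
    simp only [hcl, av_const Y0 hne] at h2
    have h3 : av X (fun x => dd g (cl (rX M) X x) Y0) =
        (Real.log (X.card : ℝ) - hh (rX M) X) + Real.log (Y0.card : ℝ) -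
          av X (fun x => Real.log ((Finset.image₂ (fun (x : ℤ) (y : ℕ) => x + (g : ℤ) * (y : ℤ))
            (cl (rX M) X x) Y0).card : ℝ)) := by
      have e1 : av X (fun x => dd g (cl (rX M) X x) Y0) +
          av X (fun x => Real.log ((Finset.image₂ (fun (x : ℤ) (y : ℕ) => x + (g : ℤ) * (y : ℤ))
            (cl (rX M) X x) Y0).card : ℝ)) =
          av X (fun x => Real.log ((cl (rX M) X x).card : ℝ)) + av X (fun _ => Real.log (Y0.card : ℝ)) := by
        rw [← av_add, ← av_add]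
        congr 1
        funext x
        unfold dd sm
        ring
      rw [av_const X hX, log_card_eq] at e1
      linarith
    have h4 : dd g X Y0 ≤ av X (fun x => dd g (cl (rX M) X x) Y0) := by
      rw [h3]
      unfold dd sm
      linarith
    linarith
  have hav : av G (fun g => dd g X Y) ≤
      av G (fun g => (Real.log (Y.card : ℝ) - Real.log (Y0.card : ℝ)) +
        av X (fun x => dd g (cl (rX M) X x) Y0)) := av_mono G _ _ (fun g _ => hone g)
  rw [av_add, av_const G hG, av_comm] at hav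
  have hav2 : av X (fun x => av G (fun g => dd g (cl (rX M) X x) Y0)) ≤
      av X (fun x => ε * Real.log ((cl (rX M) X x).card : ℝ) +
        (ε * Real.log (Y0.card : ℝ) + F Y0)) := by
    refine av_mono X _ _ (fun x hx => ?_)
    have := IH (cl (rX M) X x) ⟨x, mem_cl_self _ _ _ hx⟩
    unfold Bd at this
    linarith
  rw [av_add, av_const X hX, av_mul, log_card_eq] at hav2
  have e1 : ε * Real.log (Y0.card : ℝ) ≤ ε * Real.log (Y.card : ℝ) :=
    mul_le_mul_of_nonneg_left hlogY hε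
  have e4 : ε * (Real.log (X.card : ℝ) - hh (rX M) X) =
      ε * Real.log (X.card : ℝ) - ε * hh (rX M) X := by ring
  unfold Bd
  linarith

private lemma av_sub' {α : Type*} (S : Finset α) (f f' : α → ℝ) :
    av S (fun x => f x - f' x) = av S f - av S f' := by
  unfold av
  rw [Finset.sum_sub_distrib, sub_div]

private lemma av3 {α β : Type*} (X : Finset α) (Y : Finset β) (hX : X.Nonempty)
    (hY : Y.Nonempty) (a : α → ℝ) (b : β → ℝ) (c : ℝ) :
    av X (fun x => av Y (fun y => a x + b y + c)) = av X a + av Y b + c := by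
  have h1 : ∀ x, av Y (fun y => a x + b y + c) = a x + (av Y b + c) := by
    intro x
    rw [av_add, av_add, av_const Y hY, av_const Y hY]
    ring
  simp only [h1]
  rw [av_add, av_const X hX]
  ring

/-- case C: `hh (rX M) X ≤ (ε/2) hh (rY M) Y`, `M` a power of `p` -/
theorem caseC (ε : ℝ) (hε : 0 < ε) (G : Finset ℕ)
    (hG : G.Nonempty) (F : Finset ℕ → ℝ) (p n : ℕ) (hp : p.Prime)
    (hG1 : (∀ g ∈ G, ¬ p ∣ g) ∨ (2 / ε ≤ (G.card : ℝ) ∧
      ∀ g ∈ G, ∀ g' ∈ G, p ∣ g → p ∣ g' → g = g')) (X : Finset ℤ) (hX : X.Nonempty)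
    (Y : Finset ℕ) (hY : Y.Nonempty) (hF : ∀ Z ⊆ Y, F Z ≤ F Y)
    (hC : hh (rX (p ^ n)) X ≤ ε / 2 * hh (rY (p ^ n)) Y)
    (IH : ∀ X' : Finset ℤ, X'.Nonempty → ∀ y ∈ Y,
      av G (fun g => dd g X' (cl (rY (p ^ n)) Y y)) ≤ Bd ε F X' (cl (rY (p ^ n)) Y y)) :
    av G (fun g => dd g X Y) ≤ Bd ε F X Y := by
  set M := p ^ n with hM
  have hX0 : 0 ≤ hh (rX M) X := hh_nonneg _ _ hX
  have hY0 : 0 ≤ hh (rY M) Y := hh_nonneg _ _ hY
  have hGc : (0 : ℝ) < (G.card : ℝ) := by exact_mod_cast Finset.card_pos.2 hG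
  have hstep : ∀ g ∈ G, dd g X Y ≤ (hh (rX M) X + (if p ∣ g then hh (rY M) Y else 0)) +
      av X (fun x => av Y (fun y => dd g (cl (rX M) X x) (cl (rY M) Y y))) := by
    intro g _
    by_cases hpg : p ∣ g
    · rw [if_pos hpg]
      have := dd_step_any g M X hX Y hY
      linarith
    · rw [if_neg hpg]
      have hc : Nat.Coprime g M := by
        rw [hM]
        exact Nat.Coprime.pow_right _ ((Nat.Prime.coprime_iff_not_dvd hp).2 hpg).symm
      have := dd_step_coprime g M hc X hX Y hY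
      linarith
  have h1 := av_mono G _ _ hstep
  rw [av_add, av_add, av_const G hG] at h1
  have hloss : av G (fun g => if p ∣ g then hh (rY M) Y else 0) ≤ ε / 2 * hh (rY M) Y := by
    rcases hG1 with hG0 | ⟨hm, hG1⟩
    · have h0 : av G (fun g => if p ∣ g then hh (rY M) Y else 0) = 0 := by
        unfold av
        rw [Finset.sum_eq_zero (fun g hg => if_neg (hG0 g hg)), zero_div]
      rw [h0]
      positivity
    · have hcount : (G.filter (fun g => p ∣ g)).card ≤ 1 := by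
        rw [Finset.card_le_one]
        intro a ha b hb
        rw [Finset.mem_filter] at ha hb
        exact hG1 a ha.1 b hb.1 ha.2 hb.2
      unfold av
      rw [← Finset.sum_filter, Finset.sum_const, nsmul_eq_mul, div_le_iff₀ hGc]
      have hc1 : ((G.filter (fun g => p ∣ g)).card : ℝ) ≤ 1 := by exact_mod_cast hcount
      have h3 : 1 ≤ ε / 2 * (G.card : ℝ) := by
        have h4 := mul_le_mul_of_nonneg_left hm (by positivity : (0 : ℝ) ≤ ε / 2)
        have h5 : ε / 2 * (2 / ε) = 1 := by field_simp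
        linarith
      have h6 : ((G.filter (fun g => p ∣ g)).card : ℝ) * hh (rY M) Y ≤ 1 * hh (rY M) Y :=
        mul_le_mul_of_nonneg_right hc1 hY0
      have h7 : 1 * hh (rY M) Y ≤ (ε / 2 * (G.card : ℝ)) * hh (rY M) Y :=
        mul_le_mul_of_nonneg_right h3 hY0
      linarith
  have hswap : av G (fun g => av X (fun x => av Y (fun y =>
      dd g (cl (rX M) X x) (cl (rY M) Y y)))) =
      av X (fun x => av Y (fun y => av G (fun g => dd g (cl (rX M) X x) (cl (rY M) Y y)))) := by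
    rw [av_comm G X (fun g x => av Y (fun y => dd g (cl (rX M) X x) (cl (rY M) Y y)))]
    congr 1
    funext x
    exact av_comm G Y (fun g y => dd g (cl (rX M) X x) (cl (rY M) Y y))
  have hIH : av X (fun x => av Y (fun y => av G (fun g =>
      dd g (cl (rX M) X x) (cl (rY M) Y y)))) ≤
      av X (fun x => av Y (fun y => ε * Real.log ((cl (rX M) X x).card : ℝ) +
        ε * Real.log ((cl (rY M) Y y).card : ℝ) + F Y)) := by
    apply av_mono
    intro x hx
    apply av_mono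
    intro y hy
    refine le_trans (IH (cl (rX M) X x) ⟨x, mem_cl_self _ _ _ hx⟩ y hy) ?_
    unfold Bd
    have := hF (cl (rY M) Y y) (Finset.filter_subset _ _)
    linarith
  rw [av3 X Y hX hY (fun x => ε * Real.log ((cl (rX M) X x).card : ℝ))
    (fun y => ε * Real.log ((cl (rY M) Y y).card : ℝ)) (F Y), av_mul, av_mul, log_card_eq,
    log_card_eq] at hIH
  rw [hswap] at h1
  unfold Bd
  have hεX : 0 ≤ ε * hh (rX M) X := mul_nonneg hε.le hX0
  linarith

/-! ### case E: only the two parts `Y_+` and `Y_0` are decoded -/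

/-- the two parts -/
def ψ (M : ℕ) (y : ℕ) : Bool := decide (M ∣ y)

/-- the price of the two parts is at most `log 2` -/
theorem dd_two (g M : ℕ) (X : Finset ℤ) (hX : X.Nonempty) (Y : Finset ℕ) (hY : Y.Nonempty) :
    dd g X Y ≤ Real.log 2 + av Y (fun y => dd g X (cl (ψ M) Y y)) := by
  have h1 : ∀ y ∈ Y, dd g X Y ≤ (Real.log (Y.card : ℝ) -
      Real.log ((cl (ψ M) Y y).card : ℝ)) + dd g X (cl (ψ M) Y y) := by
    intro y hy
    have := dd_restrict g (Finset.Subset.refl X) (Finset.filter_subset (fun z => ψ M z = ψ M y) Y)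
      hX ⟨y, mem_cl_self (ψ M) Y y hy⟩
    unfold cl
    linarith
  have h2 := av_mono Y _ _ h1
  rw [av_const Y hY, av_add, av_sub', av_const Y hY, log_card_eq] at h2
  have h3 := hh_le_log_card (ψ M) Y hY
  have h4 : Real.log ((Y.image (ψ M)).card : ℝ) ≤ Real.log 2 := by
    apply Real.log_le_log
    · exact_mod_cast Finset.card_pos.2 (hY.image _)
    · have h5 : (Y.image (ψ M)).card ≤ 2 := by
        have := Finset.card_le_univ (Y.image (ψ M))
        simpa using this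
      exact_mod_cast h5
  linarith

/-- a separating `g` -/
theorem dd_two_sep (g M : ℕ) (X : Finset ℤ) (hX : X.Nonempty) (Y : Finset ℕ) (hY : Y.Nonempty)
    (h : ∀ x ∈ X, ∀ x' ∈ X, ∀ y ∈ Y, ∀ y' ∈ Y,
      x + (g : ℤ) * (y : ℤ) = x' + (g : ℤ) * (y' : ℤ) → (M ∣ y ↔ M ∣ y')) :
    dd g X Y ≤ av Y (fun y => dd g X (cl (ψ M) Y y)) := by
  have h2 := step_right (fun (x : ℤ) (y : ℕ) => x + (g : ℤ) * (y : ℤ)) (fun _ : ℤ => ()) (ψ M)
    X Y hX hY (by
      intro x hx x' hx' y hy y' hy' _ hxy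
      unfold ψ
      exact decide_eq_decide.2 (h x hx x' hx' y hy y' hy' hxy))
  have hcl : ∀ x : ℤ, cl (fun _ : ℤ => ()) X x = X := by
    intro y
    unfold cl
    exact Finset.filter_true_of_mem (fun _ _ => rfl)
  simp only [hcl] at h2
  rw [av_const X hX] at h2
  have h3 : av Y (fun y => dd g X (cl (ψ M) Y y)) =
      Real.log (X.card : ℝ) + (Real.log (Y.card : ℝ) - hh (ψ M) Y) -
        av Y (fun y => Real.log ((Finset.image₂ (fun (x : ℤ) (y : ℕ) => x + (g : ℤ) * (y : ℤ))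
          X (cl (ψ M) Y y)).card : ℝ)) := by
    have e1 : (fun y => dd g X (cl (ψ M) Y y)) = fun y => (Real.log (X.card : ℝ) +
        Real.log ((cl (ψ M) Y y).card : ℝ)) - Real.log ((Finset.image₂ (fun (x : ℤ) (y : ℕ) =>
          x + (g : ℤ) * (y : ℤ)) X (cl (ψ M) Y y)).card : ℝ) := by
      funext y
      rfl
    rw [e1, av_sub', av_add, av_const Y hY, log_card_eq]
  rw [h3]
  unfold dd sm
  linarith

/-- the average of `F` over the parts when `F` drops by `c` on `Y_+` -/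
private theorem av_part (M : ℕ) (Y : Finset ℕ) (B c : ℝ) (f : ℕ → ℝ) (hY : Y.Nonempty)
    (h : ∀ y ∈ Y, f y ≤ B - (if ¬ M ∣ y then c else 0)) :
    av Y f ≤ B - c * (((Y.filter (fun y => ¬ M ∣ y)).card : ℝ) / (Y.card : ℝ)) := by
  refine (av_mono Y _ _ h).trans (le_of_eq ?_)
  rw [av_sub', av_const Y hY]
  congr 1
  unfold av
  rw [← Finset.sum_filter, Finset.sum_const, nsmul_eq_mul]
  ring

private theorem part_sub (M : ℕ) (Y : Finset ℕ) (y : ℕ) : cl (ψ M) Y y ⊆ Y :=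
  Finset.filter_subset _ _

private theorem part_pos (M : ℕ) (Y : Finset ℕ) (y : ℕ) (hy : ¬ M ∣ y) :
    ∀ z ∈ cl (ψ M) Y y, ¬ M ∣ z := by
  intro z hz hzM
  have h1 : ψ M z = ψ M y := (Finset.mem_filter.1 hz).2
  unfold ψ at h1
  exact hy ((decide_eq_decide.1 h1).1 hzM)

/-- case E at a bad index -/
theorem caseE2 (ε K t0 : ℝ) (hε : 0 ≤ ε) (ht0 : 0 < t0) (hKC : Real.log 2 ≤ K * t0)
    (G : Finset ℕ) (hG : G.Nonempty) (F : Finset ℕ → ℝ) (M : ℕ)
    (X : Finset ℤ) (hX : X.Nonempty) (Y : Finset ℕ) (hY : Y.Nonempty)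
    (hτ : t0 * (Y.card : ℝ) ≤ ((Y.filter (fun y => ¬ M ∣ y)).card : ℝ))
    (hF : ∀ Z ⊆ Y, F Z ≤ F Y)
    (hFK : ∀ Z ⊆ Y, Z.Nonempty → (∀ z ∈ Z, ¬ M ∣ z) → F Z + K ≤ F Y) (hK : 0 ≤ K)
    (IH : ∀ y ∈ Y, av G (fun g => dd g X (cl (ψ M) Y y)) ≤ Bd ε F X (cl (ψ M) Y y)) :
    av G (fun g => dd g X Y) ≤ Bd ε F X Y := by
  have hYc : (0 : ℝ) < (Y.card : ℝ) := by exact_mod_cast Finset.card_pos.2 hY
  have h1 : av G (fun g => dd g X Y) ≤ Real.log 2 +
      av Y (fun y => av G (fun g => dd g X (cl (ψ M) Y y))) := by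
    have e1 := av_mono G _ _ (fun g (_ : g ∈ G) => dd_two g M X hX Y hY)
    rw [av_add, av_const G hG, av_comm G Y (fun g y => dd g X (cl (ψ M) Y y))] at e1
    exact e1
  have h2 := av_part M Y (Bd ε F X Y) K (fun y => av G (fun g => dd g X (cl (ψ M) Y y))) hY (by
    intro y hy
    refine (IH y hy).trans ?_
    have l2 := log_card_mono (⟨y, mem_cl_self (ψ M) Y y hy⟩ : (cl (ψ M) Y y).Nonempty)
      (part_sub M Y y)
    have m2 := mul_le_mul_of_nonneg_left l2 hε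
    unfold Bd
    by_cases hMy : M ∣ y
    · rw [if_neg (not_not.2 hMy)]
      have := hF _ (part_sub M Y y)
      linarith
    · rw [if_pos hMy]
      have := hFK _ (part_sub M Y y) ⟨y, mem_cl_self (ψ M) Y y hy⟩ (part_pos M Y y hMy)
      linarith)
  have h4 : t0 ≤ ((Y.filter (fun y => ¬ M ∣ y)).card : ℝ) / (Y.card : ℝ) := by
    rw [le_div_iff₀ hYc]
    exact hτ
  have h5 := mul_le_mul_of_nonneg_left h4 hK
  linarith

open Classical in
/-- case E at a good index -/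
theorem caseE1 (ε lam C4 δ t0 : ℝ) (hε : 0 ≤ ε) (hlam : 0 ≤ lam)
    (hC4 : 0 ≤ C4) (hδ : 0 < δ) (hδ1 : δ ≤ 1 / 2) (hδt : δ ≤ t0 / 2) (ht0 : 0 < t0) (r : ℕ)
    (hr : Real.exp (C4 / δ) ≤ (r : ℝ)) (G : Finset ℕ) (hG : G.Nonempty)
    (hm : 4 * δ + (r : ℝ) ^ 3 * Real.log 2 / (G.card : ℝ) ≤ lam * (t0 / 2))
    (F : Finset ℕ → ℝ) (p t α : ℕ) (hp : p.Prime)
    (hGp : ∀ g ∈ G, ∀ g' ∈ G, g ≠ g' → ¬ ((p ^ α : ℕ) : ℤ) ∣ (g : ℤ) - g')
    (X : Finset ℤ) (hX : X.Nonempty) (Y : Finset ℕ) (hY : Y.Nonempty)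
    (hdiv : ∀ y ∈ Y, p ^ t ∣ y)
    (hgap : ∀ y ∈ Y, ¬ p ^ (t + α) ∣ y → ¬ p ^ (t + 1) ∣ y)
    (hτ : t0 * (Y.card : ℝ) ≤ ((Y.filter (fun y => ¬ p ^ (t + α) ∣ y)).card : ℝ))
    (hF : ∀ Z ⊆ Y, F Z ≤ F Y)
    (hFK : ∀ Z ⊆ Y, Z.Nonempty → (∀ z ∈ Z, ¬ p ^ (t + α) ∣ z) → F Z + lam ≤ F Y)
    (hX4 : hh (rX (p ^ (t + α))) X ≤ C4) (hY4 : hh (rY (p ^ (t + α))) Y ≤ C4)
    (IH : ∀ X' : Finset ℤ, X'.Nonempty → ∀ Y' ⊆ Y, Y'.Nonempty → ∀ y ∈ Y',
      av G (fun g => dd g X' (cl (ψ (p ^ (t + α))) Y' y)) ≤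
        Bd ε F X' (cl (ψ (p ^ (t + α))) Y' y)) :
    av G (fun g => dd g X Y) ≤ Bd ε F X Y := by
  set M := p ^ (t + α) with hM
  have hYc : (0 : ℝ) < (Y.card : ℝ) := by exact_mod_cast Finset.card_pos.2 hY
  have hGc : (0 : ℝ) < (G.card : ℝ) := by exact_mod_cast Finset.card_pos.2 hG
  have hl2 : 0 ≤ Real.log 2 := Real.log_nonneg (by norm_num)
  obtain ⟨X', hX'X, hX'ne, hX'c, hX'r, -⟩ := trunc (rX M) X hX C4 δ hX4 hC4 hδ hδ1
  obtain ⟨Y', hY'Y, hY'ne, hY'c, hY'r, -⟩ := trunc (rY M) Y hY C4 δ hY4 hC4 hδ hδ1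
  have hY'p : (0 : ℝ) < (Y'.card : ℝ) := by exact_mod_cast Finset.card_pos.2 hY'ne
  have hX'r' : (X'.image (rX M)).card ≤ r := by exact_mod_cast hX'r.trans hr
  have hY'r' : (Y'.image (rY M)).card ≤ r := by exact_mod_cast hY'r.trans hr
  have hcount := count_bad p t α hp G hGp X' Y' (fun y hy => hdiv y (hY'Y hy))
    (fun y hy => hgap y (hY'Y hy)) r hX'r' hY'r'
  rw [← hM] at hcount
  set Sep : ℕ → Prop := fun g : ℕ => ∀ x ∈ X', ∀ x' ∈ X', ∀ y ∈ Y', ∀ y' ∈ Y',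
      x + (g : ℤ) * (y : ℤ) = x' + (g : ℤ) * (y' : ℤ) → (M ∣ y ↔ M ∣ y') with hSep
  have hcount' : (G.filter (fun g => ¬ Sep g)).card ≤ r ^ 3 := hcount
  have lX := log_loss hX'ne hX'X δ hδ hδ1 hX'c
  have lY := log_loss hY'ne hY'Y δ hδ hδ1 hY'c
  -- one `g`
  have hone : ∀ g ∈ G, dd g X Y ≤ (4 * δ + (if ¬ Sep g then Real.log 2 else 0)) +
      av Y' (fun y => dd g X' (cl (ψ M) Y' y)) := by
    intro g _
    have h1 := dd_restrict g hX'X hY'Y hX'ne hY'ne
    by_cases hs : Sep g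
    · rw [if_neg (not_not.2 hs)]
      have h2 := dd_two_sep g M X' hX'ne Y' hY'ne hs
      linarith
    · rw [if_pos hs]
      have h2 := dd_two g M X' hX'ne Y' hY'ne
      linarith
  have h1 := av_mono G _ _ hone
  rw [av_add, av_add, av_const G hG, av_comm G Y' (fun g y => dd g X' (cl (ψ M) Y' y))] at h1
  have hbad : av G (fun g => if ¬ Sep g then Real.log 2 else 0) ≤
      (r : ℝ) ^ 3 * Real.log 2 / (G.card : ℝ) := by
    unfold av
    rw [← Finset.sum_filter, Finset.sum_const, nsmul_eq_mul]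
    apply div_le_div_of_nonneg_right _ hGc.le
    apply mul_le_mul_of_nonneg_right _ hl2
    exact_mod_cast hcount'
  have h2 := av_part M Y' (Bd ε F X Y) lam (fun y => av G (fun g => dd g X' (cl (ψ M) Y' y)))
    hY'ne (by
    intro y hy
    refine (IH X' hX'ne Y' hY'Y hY'ne y hy).trans ?_
    have hsub : cl (ψ M) Y' y ⊆ Y := (part_sub M Y' y).trans hY'Y
    have hne : (cl (ψ M) Y' y).Nonempty := ⟨y, mem_cl_self (ψ M) Y' y hy⟩
    have m1 := mul_le_mul_of_nonneg_left (log_card_mono hX'ne hX'X) hε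
    have m2 := mul_le_mul_of_nonneg_left (log_card_mono hne hsub) hε
    unfold Bd
    by_cases hMy : M ∣ y
    · rw [if_neg (not_not.2 hMy)]
      have := hF _ hsub
      linarith
    · rw [if_pos hMy]
      have := hFK _ hsub hne (part_pos M Y' y hMy)
      linarith)
  have h4 : t0 / 2 ≤ ((Y'.filter (fun y => ¬ M ∣ y)).card : ℝ) / (Y'.card : ℝ) := by
    rw [le_div_iff₀ hY'p]
    have hsplit : (Y.filter (fun y => ¬ M ∣ y)).card ≤
        (Y'.filter (fun y => ¬ M ∣ y)).card + (Y \ Y').card := by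
      have hsub : Y.filter (fun y => ¬ M ∣ y) ⊆ Y'.filter (fun y => ¬ M ∣ y) ∪ (Y \ Y') := by
        intro y hy
        rw [mem_filter] at hy
        rw [mem_union, mem_filter, mem_sdiff]
        by_cases hy' : y ∈ Y'
        · exact Or.inl ⟨hy', hy.2⟩
        · exact Or.inr ⟨hy.1, hy'⟩
      exact (card_le_card hsub).trans (card_union_le _ _)
    have hsd : ((Y \ Y').card : ℝ) = (Y.card : ℝ) - (Y'.card : ℝ) := by
      rw [card_sdiff_of_subset hY'Y, Nat.cast_sub (card_le_card hY'Y)]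
    have hsplit' : ((Y.filter (fun y => ¬ M ∣ y)).card : ℝ) ≤
        ((Y'.filter (fun y => ¬ M ∣ y)).card : ℝ) + ((Y \ Y').card : ℝ) := by
      exact_mod_cast hsplit
    have hle : (Y'.card : ℝ) ≤ (Y.card : ℝ) := by exact_mod_cast card_le_card hY'Y
    rw [hsd] at hsplit'
    have a1 : δ * (Y.card : ℝ) ≤ t0 / 2 * (Y.card : ℝ) := mul_le_mul_of_nonneg_right hδt hYc.le
    have a2 : t0 / 2 * (Y'.card : ℝ) ≤ t0 / 2 * (Y.card : ℝ) :=
      mul_le_mul_of_nonneg_left hle (by positivity)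
    nlinarith
  have h5 := mul_le_mul_of_nonneg_left h4 hlam
  linarith

end Pool.Agent.Helper82.MQ
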