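import Pool.Agent.Helper24.MD.Mid
import Pool.Agent.Helper82.MQ.Cases

set_option autoImplicit false

/-! # MQ, Proposition S for a general splitting rule -/

namespace Pool.Agent.Helper82.MQ

open Finset
open Pool.Agent.Helper24.MD (av cl hh sm dd rX rY mem_cl_self hh_nonneg hh_lower mid)

theorem dd_one (g : ℕ) (X : Finset ℤ) (Y : Finset ℕ) (hY : Y.card = 1) : dd g X Y = 0 := by
  obtain ⟨y, rfl⟩ := Finset.card_eq_one.1 hY
  unfold dd sm
  have : (Finset.image₂ (fun (x : ℤ) (y : ℕ) => x + (g : ℤ) * (y : ℤ)) X {y}).card = X.card := by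
    rw [Finset.image₂_singleton_right]
    apply Finset.card_image_of_injective
    intro a b hab
    simpa using hab
  rw [this]
  simp

/-- the class of an element of `Y` is proper -/
theorem cl_card_lt (M : ℕ) (Y : Finset ℕ)
    (h1 : (Y.filter (fun y => ¬ M ∣ y)).Nonempty) (h0 : (Y.filter (fun y => M ∣ y)).Nonempty)
    (y : ℕ) : (cl (rY M) Y y).card < Y.card := by
  obtain ⟨a, ha⟩ := h1
  obtain ⟨b, hb⟩ := h0
  rw [Finset.mem_filter] at ha hb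
  apply Finset.card_lt_card
  unfold cl
  rw [Finset.filter_ssubset]
  by_contra hcon
  push Not at hcon
  have h2 := hcon a ha.1
  have h3 := hcon b hb.1
  have h4 : rY M a = rY M b := h2.trans h3.symm
  unfold rY at h4
  have h5 : ((b : ℕ) : ZMod M) = 0 := (ZMod.natCast_eq_zero_iff b M).2 hb.2
  rw [h5] at h4
  exact ha.2 ((ZMod.natCast_eq_zero_iff a M).1 h4)

/-- a part of a subset of `Y` is smaller than `Y` -/
theorem part_card_lt (M : ℕ) (Y : Finset ℕ)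
    (h1 : (Y.filter (fun y => ¬ M ∣ y)).Nonempty) (h0 : (Y.filter (fun y => M ∣ y)).Nonempty)
    (Y' : Finset ℕ) (hY' : Y' ⊆ Y) (y : ℕ) : (cl (ψ M) Y' y).card < Y.card := by
  obtain ⟨a, ha⟩ := h1
  obtain ⟨b, hb⟩ := h0
  rw [Finset.mem_filter] at ha hb
  apply Finset.card_lt_card
  refine ⟨(Finset.filter_subset _ _).trans hY', fun hcon => ?_⟩
  have h2 : ψ M a = ψ M y := (Finset.mem_filter.1 (hcon ha.1)).2
  have h3 : ψ M b = ψ M y := (Finset.mem_filter.1 (hcon hb.1)).2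
  have h4 : ψ M a = ψ M b := h2.trans h3.symm
  unfold ψ at h4
  exact ha.2 ((decide_eq_decide.1 h4).2 hb.2)

/-- A splitting of `Y`: the valuations are `t` or at least `t + α`, both occur, `F` drops by `lam`
on the part `Y_+` with valuation `t`; `p` divides no element of `G` (or at most one if `G` has at
least `m` elements), and either `G` has at least `m` elements and `p ^ α` divides no difference of
two of them, or `F` drops even by `K`. -/
structure Node (m : ℕ) (G : Finset ℕ) (F : Finset ℕ → ℝ) (lam K : ℝ) (Y : Finset ℕ) (p t α : ℕ) :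
    Prop where
  prime : p.Prime
  pos : 1 ≤ α
  div : ∀ y ∈ Y, p ^ t ∣ y
  gap : ∀ y ∈ Y, ¬ p ^ (t + α) ∣ y → ¬ p ^ (t + 1) ∣ y
  ne1 : (Y.filter (fun y => ¬ p ^ (t + α) ∣ y)).Nonempty
  ne0 : (Y.filter (fun y => p ^ (t + α) ∣ y)).Nonempty
  drop : ∀ Z ⊆ Y, Z.Nonempty → (∀ z ∈ Z, ¬ p ^ (t + α) ∣ z) → F Z + lam ≤ F Y
  cop : (∀ g ∈ G, ¬ p ∣ g) ∨ (m ≤ G.card ∧ ∀ g ∈ G, ∀ g' ∈ G, p ∣ g → p ∣ g' → g = g')
  good : (m ≤ G.card ∧ ∀ g ∈ G, ∀ g' ∈ G, g ≠ g' → ¬ ((p ^ α : ℕ) : ℤ) ∣ (g : ℤ) - g') ∨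
    ∀ Z ⊆ Y, Z.Nonempty → (∀ z ∈ Z, ¬ p ^ (t + α) ∣ z) → F Z + K ≤ F Y

/-- Proposition S for `ε ≤ 1` and a general splitting rule -/
theorem propS (ε lam : ℝ) (hε : 0 < ε) (hε1 : ε ≤ 1) (hlam : 0 < lam) :
    ∃ m : ℕ, 2 ≤ m ∧ ∃ K : ℝ, 0 ≤ K ∧
      ∀ G : Finset ℕ, G.Nonempty →
      ∀ F : Finset ℕ → ℝ, (∀ Y, 0 ≤ F Y) → (∀ Z Y : Finset ℕ, Z ⊆ Y → F Z ≤ F Y) →
      ∀ Y : Finset ℕ, Y.Nonempty →
        (∀ Y' ⊆ Y, 2 ≤ Y'.card → ∃ p t α : ℕ, Node m G F lam K Y' p t α) →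
        ∀ X : Finset ℤ, X.Nonempty → av G (fun g => dd g X Y) ≤ Bd ε F X Y := by
  classical
  -- constants
  obtain ⟨κ, hκ, hκ1, hκl⟩ : ∃ κ : ℝ, 0 < κ ∧ κ ≤ 1 / 2 ∧ 2 * κ ≤ lam := by
    refine ⟨min (1 / 2) (lam / 2), by positivity, min_le_left _ _, ?_⟩
    have := min_le_right (1 / 2) (lam / 2)
    linarith
  obtain ⟨C4, hC4⟩ : ∃ C4 : ℝ, C4 = 2 * (Real.log (1 / κ) / ε) / ε := ⟨_, rfl⟩
  have hC40 : 0 ≤ C4 := by
    rw [hC4]
    have h1 : 0 ≤ Real.log (1 / κ) := by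
      apply Real.log_nonneg
      rw [le_div_iff₀ hκ]
      linarith
    positivity
  obtain ⟨t0, ht0e⟩ : ∃ t0 : ℝ, t0 = Real.exp (-4 / ε ^ 2) := ⟨_, rfl⟩
  have ht0 : 0 < t0 := by rw [ht0e]; exact Real.exp_pos _
  obtain ⟨δ, hδ, hδ1, hδt, hδl⟩ : ∃ δ : ℝ, 0 < δ ∧ δ ≤ 1 / 2 ∧ δ ≤ t0 / 2 ∧
      4 * δ ≤ lam * t0 / 4 := by
    refine ⟨min (1 / 2) (min (t0 / 2) (lam * t0 / 16)), by positivity, min_le_left _ _,
      (min_le_right _ _).trans (min_le_left _ _), ?_⟩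
    have := (min_le_right (1 / 2) (min (t0 / 2) (lam * t0 / 16))).trans
      (min_le_right (t0 / 2) (lam * t0 / 16))
    linarith
  have hl2 : 0 ≤ Real.log 2 := Real.log_nonneg (by norm_num)
  obtain ⟨r, hr⟩ : ∃ r : ℕ, Real.exp (C4 / δ) ≤ (r : ℝ) := ⟨⌈Real.exp (C4 / δ)⌉₊, Nat.le_ceil _⟩
  obtain ⟨m1, hm1⟩ : ∃ m1 : ℕ, 2 / ε ≤ (m1 : ℝ) := ⟨⌈2 / ε⌉₊, Nat.le_ceil _⟩
  obtain ⟨m2, hm2⟩ : ∃ m2 : ℕ, (r : ℝ) ^ 3 * Real.log 2 * (4 / (lam * t0)) ≤ (m2 : ℝ) :=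
    ⟨⌈(r : ℝ) ^ 3 * Real.log 2 * (4 / (lam * t0))⌉₊, Nat.le_ceil _⟩
  refine ⟨max 2 (max m1 m2), le_max_left _ _, Real.log 2 / t0, by positivity, ?_⟩
  set m := max 2 (max m1 m2) with hmdef
  intro G hGne F hF0 hFm
  have hGpos : (0 : ℝ) < (G.card : ℝ) := by exact_mod_cast Finset.card_pos.2 hGne
  have hK : 0 ≤ Real.log 2 / t0 := by positivity
  have hmC : m ≤ G.card → 2 / ε ≤ (G.card : ℝ) := fun hGm =>
    hm1.trans (by exact_mod_cast (le_max_left _ _).trans ((le_max_right _ _).trans hGm))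
  have hmE : m ≤ G.card →
      4 * δ + (r : ℝ) ^ 3 * Real.log 2 / (G.card : ℝ) ≤ lam * (t0 / 2) := by
    intro hGm
    have hGm2 : m2 ≤ G.card := (le_max_right _ _).trans ((le_max_right _ _).trans hGm)
    have h1 : (r : ℝ) ^ 3 * Real.log 2 * (4 / (lam * t0)) ≤ (G.card : ℝ) :=
      hm2.trans (by exact_mod_cast hGm2)
    have h2 : (r : ℝ) ^ 3 * Real.log 2 / (G.card : ℝ) ≤ lam * t0 / 4 := by
      rw [div_le_iff₀ hGpos]
      have h3 : (r : ℝ) ^ 3 * Real.log 2 = (lam * t0 / 4) *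
          ((r : ℝ) ^ 3 * Real.log 2 * (4 / (lam * t0))) := by
        field_simp
      rw [h3]
      exact mul_le_mul_of_nonneg_left h1 (by positivity)
    linarith
  -- induction
  suffices H : ∀ n : ℕ, ∀ Y : Finset ℕ, Y.card = n → Y.Nonempty →
      (∀ Y' ⊆ Y, 2 ≤ Y'.card → ∃ p t α : ℕ, Node m G F lam (Real.log 2 / t0) Y' p t α) →
      ∀ X : Finset ℤ, X.Nonempty → av G (fun g => dd g X Y) ≤ Bd ε F X Y from
    fun Y hY hnode X hX => H _ Y rfl hY hnode X hX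
  intro n
  induction n using Nat.strong_induction_on with
  | _ n ih =>
  intro Y hn hY hnode X hX
  have IH : ∀ Y' : Finset ℕ, Y' ⊆ Y → Y'.card < Y.card → Y'.Nonempty →
      ∀ X' : Finset ℤ, X'.Nonempty → av G (fun g => dd g X' Y') ≤ Bd ε F X' Y' := by
    intro Y' hsub hlt hne X' hX'
    exact ih Y'.card (hn ▸ hlt) Y' rfl hne (fun Z hZ => hnode Z (hZ.trans hsub)) X' hX'
  by_cases h2 : Y.card < 2
  · have h1 : Y.card = 1 := by
      have := Finset.card_pos.2 hY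
      omega
    have h3 : av G (fun g => dd g X Y) = 0 := by
      unfold av
      rw [Finset.sum_eq_zero (fun g _ => dd_one g X Y h1)]
      simp
    rw [h3]
    unfold Bd
    have a1 : 0 ≤ Real.log (X.card : ℝ) := Real.log_natCast_nonneg _
    have a2 : 0 ≤ Real.log (Y.card : ℝ) := Real.log_natCast_nonneg _
    have a3 := hF0 Y
    positivity
  push Not at h2
  obtain ⟨p, t, α, hN⟩ := hnode Y (Finset.Subset.refl Y) h2
  have hp := hN.prime
  have hYp := hN.ne1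
  have hY0 := hN.ne0
  set M := p ^ (t + α) with hM
  have hcard : (Y.filter (fun y => ¬ M ∣ y)).card + (Y.filter (fun y => M ∣ y)).card = Y.card := by
    rw [add_comm]
    exact Finset.card_filter_add_card_filter_not _
  have hYp0 := Finset.card_pos.2 hYp
  have hY00 := Finset.card_pos.2 hY0
  -- case A
  by_cases hA : (1 - κ) * (Y.card : ℝ) ≤ ((Y.filter (fun y => ¬ M ∣ y)).card : ℝ)
  · exact caseA ε lam κ hε.le hκ hκ1 hκl G hGne F X hX Y _ (Finset.filter_subset _ _) hYp hA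
      (hN.drop _ (Finset.filter_subset _ _) hYp (fun z hz => (Finset.mem_filter.1 hz).2))
      (IH _ (Finset.filter_subset _ _) (by omega) hYp X hX)
  -- case B
  by_cases hB : Real.log (Y.card : ℝ) - Real.log ((Y.filter (fun y => M ∣ y)).card : ℝ) ≤
      ε * hh (rX M) X
  · exact caseB ε hε.le G hGne F M X hX Y _
      (Finset.filter_subset _ _) hY0 (fun y hy => (Finset.mem_filter.1 hy).2)
      (hFm _ _ (Finset.filter_subset _ _)) hB
      (fun X' hX' => IH _ (Finset.filter_subset _ _) (by omega) hY0 X' hX')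
  -- case C
  by_cases hC : hh (rX M) X ≤ ε / 2 * hh (rY M) Y
  · refine caseC ε hε G hGne F p (t + α) hp ?_ X hX Y hY (fun Z hZ => hFm Z Y hZ) hC ?_
    · exact hN.cop.imp id (fun h => ⟨hmC h.1, h.2⟩)
    · intro X' hX' y hy
      exact IH _ (Finset.filter_subset _ _) (cl_card_lt M Y hYp hY0 y) ⟨y, mem_cl_self _ _ _ hy⟩
        X' hX'
  -- case E
  push Not at hA hB hC
  have hlow := hh_lower (rY M) Y (Y.filter (fun y => ¬ M ∣ y)) hY
    (Finset.filter_subset _ _) hYp (by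
      intro y hy z hz
      unfold cl at hz
      rw [Finset.mem_filter] at hy hz ⊢
      refine ⟨hz.1, fun hd => hy.2 ?_⟩
      have h3 : ((z : ℕ) : ZMod M) = ((y : ℕ) : ZMod M) := hz.2
      have h4 : ((z : ℕ) : ZMod M) = 0 := (ZMod.natCast_eq_zero_iff _ _).2 hd
      rw [h4] at h3
      exact (ZMod.natCast_eq_zero_iff _ _).1 h3.symm)
  have hab : ((Y.filter (fun y => M ∣ y)).card : ℝ) =
      (Y.card : ℝ) - ((Y.filter (fun y => ¬ M ∣ y)).card : ℝ) := by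
    rw [← hcard]
    push_cast
    ring
  rw [hab] at hB
  have hY0r : (0 : ℝ) < ((Y.filter (fun y => M ∣ y)).card : ℝ) := by
    exact_mod_cast hY00
  obtain ⟨hX4, hY4, hτ⟩ := mid ε κ (Y.card : ℝ)
    ((Y.filter (fun y => ¬ M ∣ y)).card : ℝ) (hh (rX M) X)
    (hh (rY M) Y) hε hε1 hκ hκ1 (by exact_mod_cast Finset.card_pos.2 hY)
    (by exact_mod_cast hYp0) (by rw [hab] at hY0r; linarith) (hh_nonneg _ _ hX)
    (hh_nonneg _ _ hY) hA hB hC hlow
  rw [← hC4] at hX4 hY4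
  rw [← ht0e] at hτ
  rcases hN.good with ⟨hGm, hgood⟩ | hbad
  · refine caseE1 ε lam C4 δ t0 hε.le hlam.le hC40 hδ hδ1 hδt ht0 r hr G hGne (hmE hGm) F p t α hp
      hgood
      X hX Y hY hN.div hN.gap hτ (fun Z hZ => hFm Z Y hZ) hN.drop hX4 hY4 ?_
    intro X' hX' Y' hY' hne y hy
    exact IH _ ((Finset.filter_subset _ _).trans hY') (part_card_lt M Y hYp hY0 Y' hY' y)
      ⟨y, mem_cl_self _ _ _ hy⟩ X' hX'
  · refine caseE2 ε (Real.log 2 / t0) t0 hε.le ht0 (by rw [div_mul_cancel₀ _ ht0.ne']) G hGne F M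
      X hX Y hY hτ (fun Z hZ => hFm Z Y hZ) hbad hK ?_
    intro y hy
    exact IH _ (Finset.filter_subset _ _) (part_card_lt M Y hYp hY0 Y (Finset.Subset.refl Y) y)
      ⟨y, mem_cl_self _ _ _ hy⟩ X hX

end Pool.Agent.Helper82.MQ
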