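import Pool.Agent.Helper24.MD.Branch
import Pool.Agent.Helper82.MQ.PropS

set_option autoImplicit false

/-! # MQ, splittings of sets generated by pairwise coprime integers -/

namespace Pool.Agent.Helper82.MQ

open Finset
open Pool.Agent.Helper24.MD (NC qq qq_mono qq_drop)

/-- the functional -/
noncomputable def FF (lam K : ℝ) (Q B : Finset ℕ) (P : ℕ → ℕ) (Y : Finset ℕ) : ℝ :=
  lam * (qq (Q.image P) Y : ℝ) + K * (qq (B.image P) Y : ℝ)

theorem FF_nonneg {lam K : ℝ} (hlam : 0 ≤ lam) (hK : 0 ≤ K) (Q B : Finset ℕ) (P : ℕ → ℕ)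
    (Y : Finset ℕ) : 0 ≤ FF lam K Q B P Y := by
  unfold FF
  positivity

theorem FF_mono {lam K : ℝ} (hlam : 0 ≤ lam) (hK : 0 ≤ K) (Q B : Finset ℕ) (P : ℕ → ℕ)
    (Z Y : Finset ℕ) (h : Z ⊆ Y) : FF lam K Q B P Z ≤ FF lam K Q B P Y := by
  unfold FF
  have h1 : (qq (Q.image P) Z : ℝ) ≤ (qq (Q.image P) Y : ℝ) := by exact_mod_cast qq_mono _ h
  have h2 : (qq (B.image P) Z : ℝ) ≤ (qq (B.image P) Y : ℝ) := by exact_mod_cast qq_mono _ h
  have h3 := mul_le_mul_of_nonneg_left h1 hlam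
  have h4 := mul_le_mul_of_nonneg_left h2 hK
  linarith

theorem qq_le_card (W Y : Finset ℕ) : qq W Y ≤ W.card := by
  classical
  unfold qq
  exact Finset.card_filter_le _ _

theorem FF_le {lam K : ℝ} (hlam : 0 ≤ lam) (hK : 0 ≤ K) (Q B : Finset ℕ) (P : ℕ → ℕ)
    (Y : Finset ℕ) : FF lam K Q B P Y ≤ lam * (Q.card : ℝ) + K * (B.card : ℝ) := by
  unfold FF
  have h1 : (qq (Q.image P) Y : ℝ) ≤ (Q.card : ℝ) := by
    exact_mod_cast (qq_le_card _ _).trans Finset.card_image_le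
  have h2 : (qq (B.image P) Y : ℝ) ≤ (B.card : ℝ) := by
    exact_mod_cast (qq_le_card _ _).trans Finset.card_image_le
  have h3 := mul_le_mul_of_nonneg_left h1 hlam
  have h4 := mul_le_mul_of_nonneg_left h2 hK
  linarith

/-- valuations of products of the `q` -/
theorem fact_prod (Q : Finset ℕ) (hQ2 : ∀ q ∈ Q, 2 ≤ q)
    (hQc : ∀ q ∈ Q, ∀ q' ∈ Q, q ≠ q' → Nat.Coprime q q') (x0 : ℕ) (hx0 : 0 < x0) (e : ℕ → ℕ)
    (q p : ℕ) (hq : q ∈ Q) (hp : p.Prime) (hpq : p ∣ q) :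
    (x0 * ∏ q ∈ Q, q ^ e q).factorization p = x0.factorization p + e q * q.factorization p := by
  have hne : ∀ q' ∈ Q, q' ^ e q' ≠ 0 := by
    intro q' hq'
    have := hQ2 q' hq'
    positivity
  rw [Nat.factorization_mul hx0.ne' (Finset.prod_ne_zero_iff.2 hne), Finsupp.add_apply,
    Nat.factorization_prod hne, Finsupp.finsetSum_apply]
  congr 1
  rw [Finset.sum_eq_single q]
  · rw [Nat.factorization_pow]
    simp
  · intro q' hq' hne'
    rw [Nat.factorization_pow]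
    have h1 : ¬ p ∣ q' := by
      intro h2
      have h3 := hQc q hq q' hq' (Ne.symm hne')
      have h4 := Nat.dvd_gcd hpq h2
      rw [h3] at h4
      exact hp.one_lt.ne' (Nat.dvd_one.1 h4)
    simp [Nat.factorization_eq_zero_of_not_dvd h1]
  · intro h
    exact absurd hq h

/-- every subset with two elements splits -/
theorem nodes (m : ℕ) (lam K : ℝ) (hlam : 0 ≤ lam) (hK : 0 ≤ K) (Q B G : Finset ℕ)
    (hQ2 : ∀ q ∈ Q, 2 ≤ q) (hQc : ∀ q ∈ Q, ∀ q' ∈ Q, q ≠ q' → Nat.Coprime q q') (P : ℕ → ℕ)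
    (hP : ∀ q ∈ Q, (P q).Prime ∧ P q ∣ q)
    (hcop : ∀ q ∈ Q, (∀ g ∈ G, ¬ P q ∣ g) ∨
      (m ≤ G.card ∧ ∀ g ∈ G, ∀ g' ∈ G, P q ∣ g → P q ∣ g' → g = g'))
    (hgood : ∀ q ∈ Q, q ∉ B → m ≤ G.card ∧ ∀ g ∈ G, ∀ g' ∈ G, g ≠ g' →
      ¬ (((P q) ^ (q.factorization (P q)) : ℕ) : ℤ) ∣ (g : ℤ) - g')
    (x0 : ℕ) (hx0 : 0 < x0) (Y : Finset ℕ)
    (hY : ∀ y ∈ Y, ∃ e : ℕ → ℕ, y = x0 * ∏ q ∈ Q, q ^ e q) (Y' : Finset ℕ) (hY' : Y' ⊆ Y)
    (h2 : 2 ≤ Y'.card) :
    ∃ p t α : ℕ, Node m G (FF lam K Q B P) lam K Y' p t α := by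
  classical
  have hpos : ∀ y ∈ Y', 0 < y := by
    intro y hy
    obtain ⟨e, rfl⟩ := hY y (hY' hy)
    apply Nat.mul_pos hx0
    apply Finset.prod_pos
    intro q hq
    have := hQ2 q hq
    positivity
  obtain ⟨u, hu, v, hv, huv⟩ := Finset.one_lt_card.1 (by omega : 1 < Y'.card)
  obtain ⟨eu, heu⟩ := hY u (hY' hu)
  obtain ⟨ev, hev⟩ := hY v (hY' hv)
  obtain ⟨q, hq, hqe⟩ : ∃ q ∈ Q, eu q ≠ ev q := by
    by_contra hcon
    push Not at hcon
    apply huv
    rw [heu, hev]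
    congr 1
    exact Finset.prod_congr rfl (fun q hq => by rw [hcon q hq])
  obtain ⟨hp, hpq⟩ := hP q hq
  set p := P q with hpdef
  set α := q.factorization p with hα
  have hq0 : q ≠ 0 := by
    have := hQ2 q hq
    omega
  have hα1 : 1 ≤ α := (hp.dvd_iff_one_le_factorization hq0).1 hpq
  have hfact : ∀ y ∈ Y', ∃ n : ℕ, y.factorization p = x0.factorization p + n * α := by
    intro y hy
    obtain ⟨e, rfl⟩ := hY y (hY' hy)
    exact ⟨e q, fact_prod Q hQ2 hQc x0 hx0 e q p hq hp hpq⟩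
  have hNC : NC Y' p := by
    refine ⟨u, hu, v, hv, ?_⟩
    rw [heu, hev, fact_prod Q hQ2 hQc x0 hx0 eu q p hq hp hpq,
      fact_prod Q hQ2 hQc x0 hx0 ev q p hq hp hpq]
    intro h
    have h3 : eu q * α = ev q * α := Nat.add_left_cancel h
    exact hqe (Nat.eq_of_mul_eq_mul_right (by omega) h3)
  obtain ⟨y0, hy0, hy0min⟩ := Y'.exists_min_image (fun y => y.factorization p) ⟨u, hu⟩
  have hdvd : ∀ y ∈ Y', ∀ i : ℕ, p ^ i ∣ y ↔ i ≤ y.factorization p := by
    intro y hy i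
    exact hp.pow_dvd_iff_le_factorization (hpos y hy).ne'
  set t := y0.factorization p with ht
  obtain ⟨n0, hn0⟩ := hfact y0 hy0
  have hdich : ∀ y ∈ Y', y.factorization p = t ∨ t + α ≤ y.factorization p := by
    intro y hy
    obtain ⟨n, hn⟩ := hfact y hy
    have hmin := hy0min y hy
    have h3 : n0 * α ≤ n * α := by
      have : t ≤ y.factorization p := hmin
      omega
    have h4 : n0 ≤ n := Nat.le_of_mul_le_mul_right h3 (by omega)
    rcases Nat.eq_or_lt_of_le h4 with h5 | h5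
    · left
      subst h5
      omega
    · right
      have h6 : (n0 + 1) * α ≤ n * α := Nat.mul_le_mul_right _ h5
      have h7 : (n0 + 1) * α = n0 * α + α := by ring
      omega
  have hnNC : ∀ Z ⊆ Y', (∀ z ∈ Z, ¬ p ^ (t + α) ∣ z) → ¬ NC Z p := by
    intro Z hZ hz
    rintro ⟨a, ha, c, hc, hac⟩
    have h3 := hz a ha
    have h4 := hz c hc
    rw [hdvd a (hZ ha)] at h3
    rw [hdvd c (hZ hc)] at h4
    have h5 := hdich a (hZ ha)
    have h6 := hdich c (hZ hc)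
    omega
  refine ⟨p, t, α, hp, hα1, ?_, ?_, ?_, ?_, ?_, hcop q hq, ?_⟩
  · intro y hy
    rw [hdvd y hy]
    exact hy0min y hy
  · intro y hy h3
    rw [hdvd y hy] at h3 ⊢
    have := hdich y hy
    omega
  · refine ⟨y0, ?_⟩
    rw [mem_filter]
    refine ⟨hy0, ?_⟩
    rw [hdvd y0 hy0]
    omega
  · obtain ⟨a, ha, c, hc, hac⟩ := hNC
    rcases hdich a ha with h3 | h3
    · rcases hdich c hc with h4 | h4
      · exact absurd (h3.trans h4.symm) hac
      · exact ⟨c, mem_filter.2 ⟨hc, (hdvd c hc _).2 h4⟩⟩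
    · exact ⟨a, mem_filter.2 ⟨ha, (hdvd a ha _).2 h3⟩⟩
  · intro Z hZ _ hz
    have h3 := qq_drop (Q.image P) hZ p (Finset.mem_image_of_mem P hq) hNC (hnNC Z hZ hz)
    have h4 := qq_mono (B.image P) hZ
    have h3' : (qq (Q.image P) Z : ℝ) + 1 ≤ (qq (Q.image P) Y' : ℝ) := by exact_mod_cast h3
    have h4' : (qq (B.image P) Z : ℝ) ≤ (qq (B.image P) Y' : ℝ) := by exact_mod_cast h4
    have h5 := mul_le_mul_of_nonneg_left h3' hlam
    have h6 := mul_le_mul_of_nonneg_left h4' hK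
    unfold FF
    linarith
  · by_cases hqB : q ∈ B
    · right
      intro Z hZ _ hz
      have h3 := qq_drop (B.image P) hZ p (Finset.mem_image_of_mem P hqB) hNC (hnNC Z hZ hz)
      have h4 := qq_mono (Q.image P) hZ
      have h3' : (qq (B.image P) Z : ℝ) + 1 ≤ (qq (B.image P) Y' : ℝ) := by exact_mod_cast h3
      have h4' : (qq (Q.image P) Z : ℝ) ≤ (qq (Q.image P) Y' : ℝ) := by exact_mod_cast h4
      have h5 := mul_le_mul_of_nonneg_left h3' hK
      have h6 := mul_le_mul_of_nonneg_left h4' hlam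
      unfold FF
      linarith
    · left
      exact hgood q hq hqB

/-- the product of the differences -/
noncomputable def DD (G : Finset ℕ) : ℕ := ∏ x ∈ G.offDiag, ((x.1 : ℤ) - (x.2 : ℤ)).natAbs

theorem DD_pos (G : Finset ℕ) : 0 < DD G := by
  unfold DD
  apply Finset.prod_pos
  intro x hx
  rw [Finset.mem_offDiag] at hx
  rw [Int.natAbs_pos]
  intro h
  apply hx.2.2
  have : (x.1 : ℤ) = x.2 := by linarith
  exact_mod_cast this

theorem DD_le (G : Finset ℕ) (L : ℕ) (hL0 : 0 < L) (hL : ∀ g ∈ G, g ≤ L) : DD G ≤ L ^ (G.card ^ 2) := by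
  unfold DD
  have h1 : ∏ x ∈ G.offDiag, ((x.1 : ℤ) - (x.2 : ℤ)).natAbs ≤ ∏ x ∈ G.offDiag, L := by
    apply Finset.prod_le_prod' 
    intro x hx
    rw [Finset.mem_offDiag] at hx
    have h2 := hL _ hx.1
    have h3 := hL _ hx.2.1
    omega
  refine h1.trans ?_
  rw [Finset.prod_const]
  apply Nat.pow_le_pow_right hL0
  rw [Finset.offDiag_card, sq]
  exact Nat.sub_le _ _

/-- the bad indices -/
theorem exists_P (Q G : Finset ℕ) (hG : G.Nonempty) (hG2 : ∀ g ∈ G, 2 ≤ g)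
    (hQ2 : ∀ q ∈ Q, 2 ≤ q)
    (hQc : ∀ q ∈ Q, ∀ q' ∈ Q, q ≠ q' → Nat.Coprime q q') (b : ℕ)
    (hb : ∀ g ∈ G, ∀ q ∈ Q, q ∉ G → g ≤ q ^ b) :
    ∃ (P : ℕ → ℕ) (B : Finset ℕ), (∀ q ∈ Q, (P q).Prime ∧ P q ∣ q) ∧
      (∀ q ∈ Q, q ∉ B → ∀ g ∈ G, ∀ g' ∈ G, g ≠ g' →
        ¬ (((P q) ^ (q.factorization (P q)) : ℕ) : ℤ) ∣ (g : ℤ) - g') ∧
      B.card ≤ G.card + b * G.card ^ 2 := by
  classical
  let good : ℕ → ℕ → Prop := fun q p => p.Prime ∧ p ∣ q ∧ ∀ g ∈ G, ∀ g' ∈ G, g ≠ g' →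
    ¬ ((p ^ (q.factorization p) : ℕ) : ℤ) ∣ (g : ℤ) - g'
  let P : ℕ → ℕ := fun q => if h : ∃ p, good q p then h.choose else q.minFac
  refine ⟨P, Q.filter (fun q => ¬ ∃ p, good q p), ?_, ?_, ?_⟩
  · intro q hq
    by_cases h : ∃ p, good q p
    · have h1 : P q = h.choose := dif_pos h
      rw [h1]
      exact ⟨h.choose_spec.1, h.choose_spec.2.1⟩
    · have h1 : P q = q.minFac := dif_neg h
      rw [h1]
      exact ⟨Nat.minFac_prime (by have := hQ2 q hq; omega), Nat.minFac_dvd q⟩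
  · intro q hq hqB
    have h : ∃ p, good q p := by
      by_contra hcon
      exact hqB (Finset.mem_filter.2 ⟨hq, hcon⟩)
    have h1 : P q = h.choose := dif_pos h
    rw [h1]
    exact h.choose_spec.2.2
  · set B := Q.filter (fun q => ¬ ∃ p, good q p) with hB
    obtain ⟨L, hLG, hLmax⟩ := G.exists_max_image id hG
    have hL2 : 2 ≤ L := hG2 L hLG
    have hLmax' : ∀ g ∈ G, g ≤ L := hLmax
    have hsplit : B.card ≤ G.card + (B \ G).card := by
      have h1 : B ⊆ G ∪ (B \ G) := by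
        intro x hx
        rw [mem_union, mem_sdiff]
        by_cases hxG : x ∈ G
        · exact Or.inl hxG
        · exact Or.inr ⟨hx, hxG⟩
      exact (card_le_card h1).trans (card_union_le _ _)
    have hdiv : ∀ q ∈ B \ G, q ∣ DD G := by
      intro q hq
      rw [mem_sdiff, hB, mem_filter] at hq
      obtain ⟨⟨hqQ, hqn⟩, -⟩ := hq
      have hq0 : q ≠ 0 := by
        have := hQ2 q hqQ
        omega
      rw [← Nat.factorization_prime_le_iff_dvd hq0 (DD_pos G).ne']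
      intro p hp
      by_cases hpq : p ∣ q
      · have h1 : ¬ good q p := fun h => hqn ⟨p, h⟩
        have h2 : ∃ g ∈ G, ∃ g' ∈ G, g ≠ g' ∧
            ((p ^ (q.factorization p) : ℕ) : ℤ) ∣ (g : ℤ) - g' := by
          by_contra hcon
          push Not at hcon
          exact h1 ⟨hp, hpq, hcon⟩
        obtain ⟨g, hg, g', hg', hne, hd⟩ := h2
        rw [← hp.pow_dvd_iff_le_factorization (DD_pos G).ne']
        have h3 : p ^ (q.factorization p) ∣ ((g : ℤ) - g').natAbs := Int.natCast_dvd.1 hd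
        refine h3.trans ?_
        unfold DD
        exact Finset.dvd_prod_of_mem (fun x : ℕ × ℕ => ((x.1 : ℤ) - (x.2 : ℤ)).natAbs)
          (Finset.mem_offDiag.2 ⟨hg, hg', hne⟩ : (g, g') ∈ G.offDiag)
      · rw [Nat.factorization_eq_zero_of_not_dvd hpq]
        exact Nat.zero_le _
    have hprod : ∏ q ∈ B \ G, q ∣ DD G := by
      apply Finset.prod_dvd_of_isRelPrime
      · intro a ha c hc hac
        rw [mem_coe, mem_sdiff, hB, mem_filter] at ha hc
        exact Nat.coprime_iff_isRelPrime.1 (hQc a ha.1.1 c hc.1.1 hac)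
      · exact hdiv
    have h1 : ∏ q ∈ B \ G, q ≤ L ^ (G.card ^ 2) :=
      (Nat.le_of_dvd (DD_pos G) hprod).trans (DD_le G L (by omega) hLmax')
    have h2 : L ^ (B \ G).card ≤ L ^ (b * G.card ^ 2) := by
      calc L ^ (B \ G).card = ∏ _q ∈ B \ G, L := by rw [Finset.prod_const]
        _ ≤ ∏ q ∈ B \ G, q ^ b := by
            apply Finset.prod_le_prod'
            intro q hq
            rw [mem_sdiff, hB, mem_filter] at hq
            exact hb L hLG q hq.1.1 hq.2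
        _ = (∏ q ∈ B \ G, q) ^ b := Finset.prod_pow _ _ _
        _ ≤ (L ^ (G.card ^ 2)) ^ b := Nat.pow_le_pow_left h1 b
        _ = L ^ (b * G.card ^ 2) := by
            rw [← pow_mul]
            congr 1
            ring
    have h3 : (B \ G).card ≤ b * G.card ^ 2 := (Nat.pow_le_pow_iff_right (by omega)).1 h2
    omega

end Pool.Agent.Helper82.MQ
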