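import Pool.Agent.Helper24.MD.KFold
import Pool.Agent.Helper82.MQ.Base

set_option autoImplicit false

/-! # MQ, sums of dilates of sets generated by pairwise coprime integers -/

namespace Pool.Agent.Helper82.MQ

open Finset
open Pool.Agent.Helper24.MD (kfold)

/-- Let `Q` be pairwise coprime, `G ⊆ Q` with `g ≤ q ^ b` for `g ∈ G`, `q ∈ Q \ G`, and `Y` a
set of products of elements of `Q` (times `x0`). -/
theorem main2 (k : ℕ) (ε C : ℝ) (hε : 0 < ε) (hC : 0 < C) : ∃ m : ℕ, 2 ≤ m ∧ ∃ K : ℝ, 0 ≤ K ∧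
    ∀ Q G : Finset ℕ, G ⊆ Q → m ≤ G.card → (∀ q ∈ Q, 2 ≤ q) →
    (∀ q ∈ Q, ∀ q' ∈ Q, q ≠ q' → Nat.Coprime q q') →
    ∀ b : ℕ, (∀ g ∈ G, ∀ q ∈ Q, q ∉ G → g ≤ q ^ b) →
    ∀ x0 : ℕ, 0 < x0 → ∀ Y : Finset ℕ, Y.Nonempty →
      (∀ y ∈ Y, ∃ e : ℕ → ℕ, y = x0 * ∏ q ∈ Q, q ^ e q) →
      ∃ g : Fin k → ℕ, (∀ i, g i ∈ G) ∧
        ((k : ℝ) - ε) * Real.log (Y.card : ℝ) - ε / C * (Q.card : ℝ) -
            K * ((G.card : ℝ) + (b : ℝ) * (G.card : ℝ) ^ 2) ≤
          Real.log ((((Fintype.piFinset (fun _ : Fin k => Y)).image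
            (fun f : Fin k → ℕ => ∑ i, ((g i : ℕ) : ℤ) * ((f i : ℕ) : ℤ))).card : ℕ) : ℝ) := by
  rcases Nat.eq_zero_or_pos k with hk | hk
  · subst hk
    refine ⟨2, le_rfl, 0, le_rfl, ?_⟩
    intro Q G _ _ _ _ b _ x0 _ Y _ _
    refine ⟨fun i => i.elim0, fun i => i.elim0, ?_⟩
    have h1 : 0 ≤ Real.log (Y.card : ℝ) := Real.log_natCast_nonneg _
    have h3 : 0 ≤ ε / C * (Q.card : ℝ) := by positivity
    have h2 : (((0 : ℕ) : ℝ) - ε) * Real.log (Y.card : ℝ) - ε / C * (Q.card : ℝ) -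
        0 * ((G.card : ℝ) + (b : ℝ) * (G.card : ℝ) ^ 2) ≤ 0 := by
      rw [Nat.cast_zero]
      nlinarith
    exact le_trans h2 (Real.log_natCast_nonneg _)
  · have hκ : (1 : ℝ) ≤ (k : ℝ) := by exact_mod_cast hk
    set κ : ℝ := (k : ℝ) with hκd
    set e : ℝ := min ε 1 with he
    have he0 : 0 < e := lt_min hε one_pos
    have he1 : e ≤ 1 := min_le_right _ _
    have hee : e ≤ ε := min_le_left _ _
    have hκ0 : 0 < κ := by linarith
    have hε10 : 0 < e / (κ * (κ + 1)) := by positivity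
    have hε11 : e / (κ * (κ + 1)) ≤ 1 := by
      rw [div_le_one (by positivity)]; nlinarith
    have hlam1 : 0 < ε / (C * κ) := by positivity
    obtain ⟨m, hm, K, hK, hprop⟩ := propS _ _ hε10 hε11 hlam1
    refine ⟨m, hm, κ * K, by positivity, ?_⟩
    intro Q G hGQ hG hQ2 hQc b hb x0 hx0 Y hY hYe
    have hGne : G.Nonempty := Finset.card_pos.1 (by omega)
    obtain ⟨P, B, hP, hgood, hBc⟩ := exists_P Q G hGne (fun g hg => hQ2 g (hGQ hg)) hQ2 hQc b hb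
    have hco : ∀ g ∈ G, ∀ g' ∈ G, g ≠ g' → Nat.Coprime g g' := fun g hg g' hg' hne =>
      hQc g (hGQ hg) g' (hGQ hg') hne
    have hcop : ∀ q ∈ Q, (∀ g ∈ G, ¬ P q ∣ g) ∨
        (m ≤ G.card ∧ ∀ g ∈ G, ∀ g' ∈ G, P q ∣ g → P q ∣ g' → g = g') := by
      intro q hq
      right
      refine ⟨hG, fun g hg g' hg' hd hd' => ?_⟩
      by_contra hne
      have h3 := hco g hg g' hg' hne
      have h4 := Nat.dvd_gcd hd hd'
      rw [h3] at h4
      exact (hP q hq).1.one_lt.ne' (Nat.dvd_one.1 h4)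
    have hB0 : 0 ≤ FF (ε / (C * κ)) K Q B P Y := FF_nonneg hlam1.le hK Q B P Y
    obtain ⟨g, hg, hgs⟩ := kfold (e / (κ * (κ + 1))) (FF (ε / (C * κ)) K Q B P Y) hε10.le hB0 G
      hGne Y hY (by
        intro X hX
        have h1 := hprop G hGne (FF (ε / (C * κ)) K Q B P) (FF_nonneg hlam1.le hK Q B P)
          (FF_mono hlam1.le hK Q B P) Y hY
          (nodes m (ε / (C * κ)) K hlam1.le hK Q B G hQ2 hQc P hP hcop
            (fun q hq hqB => ⟨hG, hgood q hq hqB⟩) x0 hx0 Y hYe) X hX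
        unfold Bd at h1
        exact h1) k
    refine ⟨g, hg, ?_⟩
    refine le_trans ?_ hgs
    have hFF := FF_le hlam1.le hK Q B P Y
    have hBc' : (B.card : ℝ) ≤ (G.card : ℝ) + (b : ℝ) * (G.card : ℝ) ^ 2 := by exact_mod_cast hBc
    have hFF' : FF (ε / (C * κ)) K Q B P Y ≤ ε / (C * κ) * (Q.card : ℝ) +
        K * ((G.card : ℝ) + (b : ℝ) * (G.card : ℝ) ^ 2) := by
      have := mul_le_mul_of_nonneg_left hBc' hK
      linarith
    have hL : 0 ≤ Real.log (Y.card : ℝ) := Real.log_natCast_nonneg _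
    generalize Real.log (Y.card : ℝ) = LY at *
    generalize ((G.card : ℝ) + (b : ℝ) * (G.card : ℝ) ^ 2) = u at *
    generalize FF (ε / (C * κ)) K Q B P Y = f at *
    have c2 : κ * LY - κ * ((κ + 1) * (e / (κ * (κ + 1))) * LY + f) =
        (κ - e) * LY - κ * f := by
      field_simp
      ring
    rw [c2]
    have c3 : κ * f ≤ ε / C * (Q.card : ℝ) + κ * K * u := by
      have h1 := mul_le_mul_of_nonneg_left hFF' hκ0.le
      have h2 : κ * (ε / (C * κ) * (Q.card : ℝ) + K * u) = ε / C * (Q.card : ℝ) + κ * K * u := by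
        field_simp
      linarith
    have d2 : (κ - ε) * LY ≤ (κ - e) * LY := mul_le_mul_of_nonneg_right (by linarith) hL
    linarith

end Pool.Agent.Helper82.MQ
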