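import Pool.Agent.Helper24.MD.Final
import Pool.Agent.Helper82.MQ.Main

set_option autoImplicit false

/-! # MQ, the theorem for finite sets of integers -/

namespace Pool.Agent.Helper82.MQ

open Finset
open Pool.Agent.Helper24.MD (half0 sgn_inj sum_le rpow_le_of_log half_log)

/-- **Sets with many dilates over a base of pairwise coprime integers** -/
theorem star (k : ℕ) (ε C : ℝ) (hε : 0 < ε) : ∃ m : ℕ, ∃ c : ℝ, 0 < c ∧
    ∀ Q G : Finset ℕ, G ⊆ Q → G.card = m → (∀ q ∈ Q, 2 ≤ q) →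
      (∀ q ∈ Q, ∀ q' ∈ Q, q ≠ q' → Nat.Coprime q q') →
      ∀ B : Finset ℤ, B.Nonempty → (Q.card : ℝ) ≤ C * Real.log B.card →
      ∀ b : ℕ, (b : ℝ) ≤ 1 + c * Real.log B.card → (∀ g ∈ G, ∀ q ∈ Q, q ∉ G → g ≤ q ^ b) →
      ∀ x0 : ℕ, 0 < x0 → (∀ y ∈ B, ∃ e : ℕ → ℕ, y.natAbs = x0 * ∏ q ∈ Q, q ^ e q) →
      ∀ A : Finset ℤ, (∀ g ∈ G, ∃ t : ℤ, ∀ y ∈ B, ((g : ℕ) : ℤ) * y + t ∈ A) →
        c * (B.card : ℝ) ^ ((k : ℝ) - ε) ≤
          (((Fintype.piFinset (fun _ : Fin k => A)).image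
            (fun f : Fin k → ℤ => ∑ i, f i)).card : ℝ) := by
  classical
  have hmax : 0 < max C 1 := lt_of_lt_of_le one_pos (le_max_right _ _)
  obtain ⟨m, hm, K, hK, hmain⟩ := main2 k (ε / 4) (max C 1) (by positivity) hmax
  obtain ⟨D, hD⟩ : ∃ D : ℝ, D = |(k : ℝ) - ε / 4| * Real.log 2 := ⟨_, rfl⟩
  have hl2 : 0 ≤ Real.log 2 := Real.log_nonneg (by norm_num)
  have hD0 : 0 ≤ D := by rw [hD]; positivity
  obtain ⟨u, hu, hu0⟩ : ∃ u : ℝ, u = K * ((m : ℝ) + (m : ℝ) ^ 2) ∧ 0 ≤ u :=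
    ⟨_, rfl, by positivity⟩
  obtain ⟨c, hc, hc1, hc2⟩ : ∃ c : ℝ, 0 < c ∧ u * c ≤ ε / 4 ∧ Real.log c ≤ -(u + D) := by
    refine ⟨min (ε / (4 * (u + 1))) (Real.exp (-(u + D))), by positivity, ?_, ?_⟩
    · have h3 : min (ε / (4 * (u + 1))) (Real.exp (-(u + D))) ≤ ε / (4 * (u + 1)) := min_le_left _ _
      have h4 : u * (ε / (4 * (u + 1))) ≤ ε / 4 := by
        rw [mul_div_assoc', div_le_div_iff₀ (by positivity) (by norm_num)]
        nlinarith
      exact (mul_le_mul_of_nonneg_left h3 hu0).trans h4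
    · have h3 : min (ε / (4 * (u + 1))) (Real.exp (-(u + D))) ≤ Real.exp (-(u + D)) :=
        min_le_right _ _
      have h4 := Real.log_le_log (by positivity) h3
      rwa [Real.log_exp] at h4
  refine ⟨m, c, hc, ?_⟩
  intro Q G hGQ hGm hQ2 hQc B hB hQB b hb hbG x0 hx0 hBe A hA
  have h0 : (0 : ℤ) ∉ B := by
    intro h
    obtain ⟨e, he⟩ := hBe 0 h
    have h1 : 0 < x0 * ∏ q ∈ Q, q ^ e q := by
      apply Nat.mul_pos hx0
      apply Finset.prod_pos
      intro q hq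
      have := hQ2 q hq
      positivity
    rw [← he] at h1
    simp at h1
  obtain ⟨σ, hσ, Y, hY, hYB, hcard⟩ := half0 B hB h0
  have hN : (0 : ℝ) < (B.card : ℝ) := by exact_mod_cast Finset.card_pos.2 hB
  have hYc : (0 : ℝ) < (Y.card : ℝ) := by exact_mod_cast Finset.card_pos.2 hY
  have hlog1 : Real.log (B.card : ℝ) ≤ Real.log 2 + Real.log (Y.card : ℝ) := by
    rw [← Real.log_mul (by norm_num) hYc.ne']
    exact Real.log_le_log hN (by exact_mod_cast hcard)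
  have hYB' : Y.card ≤ B.card := by
    refine Finset.card_le_card_of_injOn (fun y : ℕ => σ * (y : ℤ)) (fun y hy => (hYB y hy).2) ?_
    intro a _ b _ hab
    have h3 := sgn_inj hσ hab
    exact_mod_cast h3
  have hlog2 : Real.log (Y.card : ℝ) ≤ Real.log (B.card : ℝ) :=
    Real.log_le_log hYc (by exact_mod_cast hYB')
  have hL : 0 ≤ Real.log (B.card : ℝ) := Real.log_natCast_nonneg _
  have hhalf := half_log ((k : ℝ) - ε / 4) (Real.log (B.card : ℝ)) (Real.log (Y.card : ℝ))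
    (Real.log 2) D hlog1 hlog2 hl2 hD.ge
  have hGne : G.Nonempty := Finset.card_pos.1 (by omega)
  have hAne : A.Nonempty := by
    obtain ⟨g, hg⟩ := hGne
    obtain ⟨t, ht⟩ := hA g hg
    obtain ⟨y, hy⟩ := hB
    exact ⟨_, ht y hy⟩
  have hSpos : (0 : ℝ) < (((Fintype.piFinset (fun _ : Fin k => A)).image
      (fun f : Fin k → ℤ => ∑ i, f i)).card : ℝ) := by
    exact_mod_cast Finset.card_pos.2 ((Fintype.piFinset_nonempty.2 fun _ => hAne).image _)
  have hYe : ∀ y ∈ Y, ∃ e : ℕ → ℕ, y = x0 * ∏ q ∈ Q, q ^ e q := by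
    intro y hy
    obtain ⟨e, he⟩ := hBe _ (hYB y hy).2
    refine ⟨e, ?_⟩
    rw [← he, Int.natAbs_mul, Int.natAbs_natCast]
    rcases hσ with rfl | rfl <;> simp
  obtain ⟨g, hg, h3⟩ := hmain Q G hGQ (by omega) hQ2 hQc b hbG x0 hx0 Y hY hYe
  have hYS : (0 : ℝ) < (((Fintype.piFinset (fun _ : Fin k => Y)).image
      (fun f : Fin k → ℕ => ∑ i, ((g i : ℕ) : ℤ) * ((f i : ℕ) : ℤ))).card : ℝ) := by
    exact_mod_cast Finset.card_pos.2 ((Fintype.piFinset_nonempty.2 fun _ => hY).image _)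
  have h4 : Real.log (((Fintype.piFinset (fun _ : Fin k => Y)).image
      (fun f : Fin k → ℕ => ∑ i, ((g i : ℕ) : ℤ) * ((f i : ℕ) : ℤ))).card : ℝ) ≤
      Real.log (((Fintype.piFinset (fun _ : Fin k => A)).image
      (fun f : Fin k → ℤ => ∑ i, f i)).card : ℝ) := by
    refine Real.log_le_log hYS ?_
    exact_mod_cast sum_le k σ hσ A B Y (fun y hy => (hYB y hy).2) g (fun i => hA _ (hg i))
  have h6 : (Q.card : ℝ) ≤ max C 1 * Real.log (B.card : ℝ) :=
    hQB.trans (mul_le_mul_of_nonneg_right (le_max_left _ _) hL)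
  have h7 : ε / 4 / max C 1 * (Q.card : ℝ) ≤ ε / 4 * Real.log (B.card : ℝ) := by
    rw [div_mul_eq_mul_div, div_le_iff₀ hmax]
    have := mul_le_mul_of_nonneg_left h6 (by positivity : (0 : ℝ) ≤ ε / 4)
    linarith
  have h8 : K * ((G.card : ℝ) + (b : ℝ) * (G.card : ℝ) ^ 2) ≤
      u + ε / 4 * Real.log (B.card : ℝ) := by
    rw [hGm]
    have h9 : K * ((m : ℝ) + (b : ℝ) * (m : ℝ) ^ 2) ≤
        K * ((m : ℝ) + (1 + c * Real.log (B.card : ℝ)) * (m : ℝ) ^ 2) := by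
      apply mul_le_mul_of_nonneg_left _ hK
      have := mul_le_mul_of_nonneg_right hb (by positivity : (0 : ℝ) ≤ (m : ℝ) ^ 2)
      linarith
    have h10 : K * ((m : ℝ) + (1 + c * Real.log (B.card : ℝ)) * (m : ℝ) ^ 2) =
        u + K * (m : ℝ) ^ 2 * (c * Real.log (B.card : ℝ)) := by
      rw [hu]
      ring
    have h11 : K * (m : ℝ) ^ 2 * (c * Real.log (B.card : ℝ)) ≤
        u * (c * Real.log (B.card : ℝ)) := by
      apply mul_le_mul_of_nonneg_right _ (by positivity)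
      rw [hu]
      have : 0 ≤ K * (m : ℝ) := by positivity
      nlinarith
    have h12 : u * (c * Real.log (B.card : ℝ)) ≤ ε / 4 * Real.log (B.card : ℝ) := by
      have := mul_le_mul_of_nonneg_right hc1 hL
      linarith
    linarith
  refine rpow_le_of_log hN hc hSpos ?_
  have h13 : ((k : ℝ) - ε) * Real.log (B.card : ℝ) =
      ((k : ℝ) - ε / 4) * Real.log (B.card : ℝ) - 3 * (ε / 4 * Real.log (B.card : ℝ)) := by ring
  have h14 : 0 ≤ ε / 4 * Real.log (B.card : ℝ) := by positivity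
  linarith

end Pool.Agent.Helper82.MQ
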